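import Pool.Agent.R193.LG.Tree

/-!
# The 6/7 bound for the L-domination game fails for trees

In the L-domination game on a finite graph two players alternately choose vertices. If the vertices
of `C` have been chosen, a vertex `v ∉ C` may be chosen if its closed neighbourhood contains a
vertex which has no neighbour in `C`. Dominator, who moves first, wants few moves, Staller wants
many moves.

Take the tree `S` with 11 vertices `0, ..., 10` and the edges
`01, 12, 03, 34, 05, 56, 07, 78, 79, 9 10`, and identify every vertex of a graph `H` with `2 k`
vertices with the vertex `0` of its own copy of `S`. In the resulting graph with `22 k` vertices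
Staller can force at least `19 k` moves, and `19 / 22 > 6 / 7`. If `H` is a tree, the result is a
tree. For `k = 1` this is a tree with 22 vertices on which at least 19 moves are made, while
`6 / 7 * 22 < 19`.

Proof. Let `tau` be the function on the sets of played vertices of one copy of `S` given by the
table of `Pool.Agent.R193.LG.Table`, and let `T` be the sum of the values of `tau` over the copies.
Staller can keep `(T + 1) / 2` (rounded down) from growing: the local properties of `tau` which are
needed are checked for all 2048 sets. At the end `T / 2` is at least the number of the vertices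
which are never played, and at the beginning `T = 3 * 2 k`.
-/

set_option autoImplicit false

namespace Pool.Agent.Results.MP_fca4fc_co.TreesAboveSixSevenths

open Pool.Agent.R193.LG

/-- For every `k ≥ 1` there is a tree with `22 k` vertices (and no isolated vertices) on which the
L-domination game started by Dominator lasts at least `19 k` moves, more than `6 / 7` of the number
of vertices. -/
theorem result (k : ℕ) (hk : 1 ≤ k) :
    ∃ (V : Type) (_ : Fintype V) (_ : DecidableEq V) (T : SimpleGraph V),
      T.IsTree ∧ (∀ v, ∃ w, T.Adj v w) ∧ Fintype.card V = 22 * k ∧ 19 * k ≤ gammaL T ∧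
        (6 / 7 : ℚ) * (Fintype.card V : ℚ) < (gammaL T : ℚ) := by
  haveI : Nonempty (Fin (2 * k)) := ⟨⟨0, by omega⟩⟩
  have hc : (⊤ : SimpleGraph (Fin (2 * k))).Connected := SimpleGraph.connected_top
  obtain ⟨H, -, hH⟩ := hc.exists_isTree_le
  have h1 : Fintype.card (Fin (2 * k) × Fin 11) = 22 * k := by
    simp only [Fintype.card_prod, Fintype.card_fin]
    ring
  have h2 : 19 * k ≤ gammaL (attach H) := by
    have := gammaL_attach (H := H)
    simp only [Fintype.card_fin] at this
    omega
  refine ⟨Fin (2 * k) × Fin 11, inferInstance, inferInstance, attach H, attach_isTree hH,
    no_isolated, h1, h2, ?_⟩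
  rw [h1]
  have h3 : (19 * k : ℚ) ≤ (gammaL (attach H) : ℚ) := by exact_mod_cast h2
  have h4 : (1 : ℚ) ≤ k := by exact_mod_cast hk
  push_cast
  linarith

end Pool.Agent.Results.MP_fca4fc_co.TreesAboveSixSevenths
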