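import Mathlib

/-!
# The `6/7` bound for the L-domination game fails for two disjoint paths on four vertices

The L-domination game on `2 P_4` lasts exactly `7` moves, and `7 > (6 / 7) * 8`. The table `tab`
gives the number of remaining moves under optimal play for each set of chosen vertices.
-/

set_option autoImplicit false

namespace Pool.Agent.Results.MP_fca4fc_co.TwoPaths

/-- `v` is a legal choice when the vertices of `S` have been chosen: `v ∉ S` and some vertex of
`N[v]` has no neighbour in `S`. -/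
def Legal {V : Type} (G : SimpleGraph V) (S : Finset V) (v : V) : Prop :=
  v ∉ S ∧ ∃ u, (u = v ∨ G.Adj v u) ∧ ∀ s ∈ S, ¬ G.Adj s u

/-- `EndsIn G m b S`: when the vertices of `S` have been chosen and Dominator (`b = true`) or
Staller (`b = false`) is to move, Dominator can force the game to end after at most `m` more
moves. -/
def EndsIn {V : Type} [DecidableEq V] (G : SimpleGraph V) : ℕ → Bool → Finset V → Prop
  | 0, _, S => ∀ v, ¬ Legal G S v
  | m + 1, true, S => (∀ v, ¬ Legal G S v) ∨ ∃ v, Legal G S v ∧ EndsIn G m false (insert v S)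
  | m + 1, false, S => ∀ v, Legal G S v → EndsIn G m true (insert v S)

/-- The length `γ_Lg(G)` of the L-domination game in which Dominator starts. -/
noncomputable def gameNum {V : Type} [DecidableEq V] (G : SimpleGraph V) : ℕ :=
  sInf {m : ℕ | EndsIn G m true ∅}

/-- Two disjoint paths `0 1 2 3` and `4 5 6 7`. -/
def G2 : SimpleGraph (Fin 8) where
  Adj i j := (i.val + 1 = j.val ∧ i.val ≠ 3) ∨ (j.val + 1 = i.val ∧ j.val ≠ 3)
  symm := ⟨fun _ _ h => h.symm⟩
  loopless := ⟨fun i h => by omega⟩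

instance : DecidableRel G2.Adj := fun i j => inferInstanceAs (Decidable
  ((i.val + 1 = j.val ∧ i.val ≠ 3) ∨ (j.val + 1 = i.val ∧ j.val ≠ 3)))

instance (S : Finset (Fin 8)) (v : Fin 8) : Decidable (Legal G2 S v) := by
  unfold Legal; infer_instance

/-- The remaining number of moves under optimal play. -/
def tab : List ℕ := [7, 7, 6, 5, 6, 5, 3, 4, 7, 5, 5, 5, 5, 5, 4, 3, 7, 6, 4, 5, 4, 5, 3, 3, 6, 5,
  5, 4, 5, 4, 3, 3, 6, 4, 3, 4, 3, 4, 2, 1, 4, 4, 4, 2, 4, 2, 1, 2, 5, 5, 4, 3, 4, 3, 1, 2, 5, 3,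
  3, 3, 3, 3, 2, 1, 6, 4, 3, 4, 3, 4, 2, 1, 4, 4, 4, 2, 4, 2, 1, 2, 5, 5, 4, 3, 4, 3, 1, 2, 5, 3,
  3, 3, 3, 3, 2, 1, 3, 3, 2, 1, 2, 1, 0, 0, 3, 2, 1, 1, 1, 1, 0, 0, 4, 3, 1, 2, 1, 2, 0, 0, 3, 2,
  2, 1, 2, 1, 0, 0, 7, 6, 4, 5, 4, 5, 3, 3, 6, 5, 5, 4, 5, 4, 3, 3, 5, 5, 4, 3, 4, 3, 2, 2, 5, 4,
  3, 3, 3, 3, 2, 2, 5, 5, 4, 3, 4, 3, 1, 2, 5, 3, 3, 3, 3, 3, 2, 1, 5, 4, 2, 3, 2, 3, 1, 1, 4, 3,
  3, 2, 3, 2, 1, 1, 5, 5, 4, 3, 4, 3, 1, 2, 5, 3, 3, 3, 3, 3, 2, 1, 5, 4, 2, 3, 2, 3, 1, 1, 4, 3,
  3, 2, 3, 2, 1, 1, 4, 3, 1, 2, 1, 2, 0, 0, 3, 2, 2, 1, 2, 1, 0, 0, 3, 3, 2, 1, 2, 1, 0, 0, 3, 2,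
  1, 1, 1, 1, 0, 0]

/-- The value of a set of chosen vertices. -/
def val (S : Finset (Fin 8)) : ℕ := tab.getD (∑ i ∈ S, 2 ^ i.val) 0

/-- Dominator is to move. -/
def turn (S : Finset (Fin 8)) : Bool := S.card % 2 == 0

/-- The local rules that the table obeys. -/
def Ok (S : Finset (Fin 8)) : Prop :=
  (turn S = true → (∀ v, Legal G2 S v → val S ≤ val (insert v S) + 1) ∧
    ((∀ v, ¬ Legal G2 S v) ∧ val S = 0 ∨ ∃ v, Legal G2 S v ∧ val (insert v S) + 1 = val S)) ∧
  (turn S = false → (∀ v, Legal G2 S v → val (insert v S) + 1 ≤ val S) ∧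
    ((∀ v, ¬ Legal G2 S v) ∧ val S = 0 ∨ ∃ v, Legal G2 S v ∧ val (insert v S) + 1 = val S))

instance (S : Finset (Fin 8)) : Decidable (Ok S) := by unfold Ok; infer_instance

lemma all_ok : ∀ S : Finset (Fin 8), Ok S := by decide +kernel

lemma turn_insert {S : Finset (Fin 8)} {v : Fin 8} (h : Legal G2 S v) :
    turn (insert v S) = !turn S := by
  unfold turn
  rw [Finset.card_insert_of_notMem h.1]
  rcases Nat.mod_two_eq_zero_or_one S.card with h1 | h1
  · have h2 : (S.card + 1) % 2 = 1 := by omega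
    rw [h1, h2]; rfl
  · have h2 : (S.card + 1) % 2 = 0 := by omega
    rw [h1, h2]; rfl

lemma lower (m : ℕ) : ∀ S : Finset (Fin 8), EndsIn G2 m (turn S) S → val S ≤ m := by
  induction m with
  | zero =>
    intro S h
    have hno : ∀ v, ¬ Legal G2 S v := by
      cases ht : turn S <;> (rw [ht] at h; exact h)
    have hok := all_ok S
    cases ht : turn S with
    | true =>
      rcases (hok.1 ht).2 with h1 | ⟨v, hv, -⟩
      · omega
      · exact absurd hv (hno v)
    | false =>
      rcases (hok.2 ht).2 with h1 | ⟨v, hv, -⟩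
      · omega
      · exact absurd hv (hno v)
  | succ m ih =>
    intro S h
    have hok := all_ok S
    cases ht : turn S with
    | true =>
      rw [ht] at h
      rcases h with h | ⟨v, hv, h⟩
      · rcases (hok.1 ht).2 with h1 | ⟨v, hv, -⟩
        · omega
        · exact absurd hv (h v)
      · have h2 : turn (insert v S) = false := by rw [turn_insert hv, ht]; rfl
        have h3 := ih (insert v S) (by rw [h2]; exact h)
        have h4 := (hok.1 ht).1 v hv
        omega
    | false =>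
      rw [ht] at h
      rcases (hok.2 ht).2 with h1 | ⟨v, hv, h1⟩
      · omega
      · have h2 : turn (insert v S) = true := by rw [turn_insert hv, ht]; rfl
        have h3 := ih (insert v S) (by rw [h2]; exact h v hv)
        omega

lemma upper (m : ℕ) : ∀ S : Finset (Fin 8), val S ≤ m → EndsIn G2 m (turn S) S := by
  induction m with
  | zero =>
    intro S h
    have hok := all_ok S
    cases ht : turn S with
    | true =>
      rcases (hok.1 ht).2 with h1 | ⟨v, hv, h1⟩
      · exact h1.1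
      · omega
    | false =>
      rcases (hok.2 ht).2 with h1 | ⟨v, hv, h1⟩
      · exact h1.1
      · omega
  | succ m ih =>
    intro S h
    have hok := all_ok S
    cases ht : turn S with
    | true =>
      rcases (hok.1 ht).2 with h1 | ⟨v, hv, h1⟩
      · exact Or.inl h1.1
      · have h2 : turn (insert v S) = false := by rw [turn_insert hv, ht]; rfl
        have h3 := ih (insert v S) (by omega)
        rw [h2] at h3
        exact Or.inr ⟨v, hv, h3⟩
    | false =>
      intro v hv
      have h1 := (hok.2 ht).1 v hv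
      have h2 : turn (insert v S) = true := by rw [turn_insert hv, ht]; rfl
      have h3 := ih (insert v S) (by omega)
      rw [h2] at h3
      exact h3

/-- The graph `2 P_4` has no isolated vertex (each vertex `v` has a neighbour `u`, and a third
vertex `w` is joined to one of the two, so every component has at least three vertices), and the
L-domination game on it lasts `7 > (6 / 7) * 8` moves. -/
theorem result : (∀ v, ∃ u w, G2.Adj v u ∧ w ≠ v ∧ w ≠ u ∧ (G2.Adj v w ∨ G2.Adj u w)) ∧
    gameNum G2 = 7 ∧ (6 / 7 : ℚ) * Fintype.card (Fin 8) < gameNum G2 := by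
  have hval : val ∅ = 7 := by decide
  have hturn : turn ∅ = true := by decide
  have h : gameNum G2 = 7 := by
    apply le_antisymm
    · have h1 := upper 7 ∅ (by rw [hval])
      rw [hturn] at h1
      exact Nat.sInf_le h1
    · have hne : {m : ℕ | EndsIn G2 m true ∅}.Nonempty := by
        have h1 := upper 7 ∅ (by rw [hval])
        rw [hturn] at h1
        exact ⟨7, h1⟩
      have h1 : EndsIn G2 (sInf {m : ℕ | EndsIn G2 m true ∅}) true ∅ := Nat.sInf_mem hne
      have h2 := lower _ ∅ (by rw [hturn]; exact h1)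
      rw [hval] at h2
      exact h2
  refine ⟨by decide, h, ?_⟩
  rw [h, Fintype.card_fin]
  norm_num

end Pool.Agent.Results.MP_fca4fc_co.TwoPaths
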